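import Pool.Agent.H80W.Main

/-!
# MP_837c35_nt: how often is a given prime the least witness?

A prime `q` is a witness for `n` if `q n + π(q)` is prime. In the residue class of `a` modulo `m`
the prime `p` is the least witness of `~ (p / φ(p m)) X / log X` of the `n ≤ X` if `p a + π(p)` is
coprime to `m`, and of finitely many `n` otherwise.
-/

set_option autoImplicit false

namespace Pool.Agent.Results.MP_837c35_nt.WitnessDensity

open Filter Topology

/-- Let `m ≥ 1` and `a` be natural numbers and `p` a prime. If `p a + π(p)` is coprime to `m`, then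
the number of `1 ≤ n ≤ X` with `n ≡ a` modulo `m` for which `p` is the least prime `q` such that
`q n + π(q)` is prime, divided by `X / log X`, tends to `p / φ(p m)`. Otherwise there are only
finitely many such `n`. Infinitely many primes `p` are of the first kind. -/
theorem result (m a : ℕ) (hm : 0 < m) :
    (∀ p : ℕ, p.Prime → Nat.Coprime (p * a + p.primeCounting) m →
      Tendsto (fun X : ℕ => (({n : ℕ | 1 ≤ n ∧ n ≤ X ∧ n ≡ a [MOD m] ∧
        IsLeast {q : ℕ | q.Prime ∧ (q * n + q.primeCounting).Prime} p}.ncard : ℕ) : ℝ) /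
          ((X : ℝ) / Real.log X)) atTop (𝓝 ((p : ℝ) / (p * m).totient))) ∧
    (∀ p : ℕ, p.Prime → ¬ Nat.Coprime (p * a + p.primeCounting) m →
      {n : ℕ | n ≡ a [MOD m] ∧
        IsLeast {q : ℕ | q.Prime ∧ (q * n + q.primeCounting).Prime} p}.Finite) ∧
    {p : ℕ | p.Prime ∧ Nat.Coprime (p * a + p.primeCounting) m}.Infinite :=
  ⟨fun p hp hc => Pool.Agent.H80W.density m a p hm hp hc,
    fun p hp hc => Pool.Agent.H80W.finite_case m a p hm hp hc,
    Pool.Agent.H80W.many_primes m a hm⟩

end Pool.Agent.Results.MP_837c35_nt.WitnessDensity
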